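import Mathlib

/-!
Basic facts on the inversion number: reformulation by vectors over the field with two elements,
monotonicity, and the effect of deleting one arc.
-/

set_option autoImplicit false

namespace Pool.Agent.H52.Inv

open Finset Matrix

/-- `R` becomes acyclic after `m` inversions. -/
def Sol {V : Type} (R : V → V → Prop) (m : ℕ) : Prop :=
  ∃ X : Fin m → Set V, ∃ f : V → ℕ, ∀ u v : V,
    (R u v ∧ Even (Nat.card {j : Fin m // u ∈ X j ∧ v ∈ X j})) ∨
    (R v u ∧ Odd (Nat.card {j : Fin m // u ∈ X j ∧ v ∈ X j})) → f u < f v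

/-- The same with vectors over `ZMod 2`. -/
def Sol' {V : Type} (R : V → V → Prop) (m : ℕ) : Prop :=
  ∃ x : V → Fin m → ZMod 2, ∃ f : V → ℕ, ∀ u v : V,
    (R u v ∧ x u ⬝ᵥ x v = 0) ∨ (R v u ∧ x u ⬝ᵥ x v = 1) → f u < f v

lemma card_eq_dot {V : Type} {m : ℕ} (x : V → Fin m → ZMod 2) (u v : V) :
    ((Nat.card {j : Fin m // x u j = 1 ∧ x v j = 1} : ℕ) : ZMod 2) = x u ⬝ᵥ x v := by
  classical
  rw [Nat.card_eq_fintype_card, Fintype.card_subtype, Finset.card_filter]
  push_cast
  unfold dotProduct
  refine Finset.sum_congr rfl fun j _ => ?_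
  have h : ∀ a b : ZMod 2, (if a = 1 ∧ b = 1 then (1 : ZMod 2) else 0) = a * b := by decide
  exact h _ _

lemma sol_iff {V : Type} (R : V → V → Prop) (m : ℕ) : Sol R m ↔ Sol' R m := by
  classical
  constructor
  · rintro ⟨X, f, h⟩
    refine ⟨fun v j => if v ∈ X j then 1 else 0, f, fun u v => ?_⟩
    have := card_eq_dot (fun v j => if v ∈ X j then (1 : ZMod 2) else 0) u v
    have h' := h u v
    simp only [ite_eq_left_iff, zero_ne_one, imp_false, not_not] at this
    rw [← this, ZMod.natCast_eq_zero_iff_even, ZMod.natCast_eq_one_iff_odd]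
    exact h'
  · rintro ⟨x, f, h⟩
    refine ⟨fun j => {v | x v j = 1}, f, fun u v => ?_⟩
    have := card_eq_dot x u v
    have h' := h u v
    rw [← this, ZMod.natCast_eq_zero_iff_even, ZMod.natCast_eq_one_iff_odd] at h'
    exact h'

lemma Sol'.mono_rel {V : Type} {R R' : V → V → Prop} {m : ℕ} (h : Sol' R m)
    (hR : ∀ u v, R' u v → R u v) : Sol' R' m := by
  obtain ⟨x, f, h⟩ := h
  refine ⟨x, f, fun u v => ?_⟩
  rintro (⟨h1, h2⟩ | ⟨h1, h2⟩)
  · exact h u v (Or.inl ⟨hR _ _ h1, h2⟩)
  · exact h u v (Or.inr ⟨hR _ _ h1, h2⟩)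

lemma Sol'.succ {V : Type} {R : V → V → Prop} {m : ℕ} (h : Sol' R m) : Sol' R (m + 1) := by
  obtain ⟨x, f, h⟩ := h
  refine ⟨fun v => Fin.cons 0 (x v), f, fun u v => ?_⟩
  have : (Fin.cons 0 (x u) : Fin (m + 1) → ZMod 2) ⬝ᵥ Fin.cons 0 (x v) = x u ⬝ᵥ x v := by
    simp [dotProduct, Fin.sum_univ_succ]
  rw [this]
  exact h u v

lemma Sol'.mono {V : Type} {R : V → V → Prop} {m m' : ℕ} (h : Sol' R m) (hm : m ≤ m') :
    Sol' R m' := by
  induction m', hm using Nat.le_induction with
  | base => exact h
  | succ k _ ih => exact ih.succ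

/-- The height function can be taken injective. -/
lemma Sol'.inj {V : Type} [Fintype V] {R : V → V → Prop} {m : ℕ} (h : Sol' R m) :
    ∃ x : V → Fin m → ZMod 2, ∃ f : V → ℕ, Function.Injective f ∧ ∀ u v : V,
      (R u v ∧ x u ⬝ᵥ x v = 0) ∨ (R v u ∧ x u ⬝ᵥ x v = 1) → f u < f v := by
  classical
  obtain ⟨x, f, h⟩ := h
  let e := Fintype.equivFin V
  refine ⟨x, fun v => f v * Fintype.card V + (e v : ℕ), ?_, fun u v huv => ?_⟩
  · intro u v huv
    have h1 := (e u).isLt
    have h2 := (e v).isLt
    simp only at huv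
    have h3 : (e u : ℕ) = e v := by
      have := congrArg (fun t => t % Fintype.card V) huv
      simp only [Nat.mul_add_mod_self_right] at this
      rwa [Nat.mod_eq_of_lt h1, Nat.mod_eq_of_lt h2] at this
    exact e.injective (Fin.ext h3)
  · have h1 := (e u).isLt
    have h2 := h u v huv
    have h3 : (f u + 1) * Fintype.card V ≤ f v * Fintype.card V := Nat.mul_le_mul_right _ h2
    simp only
    nlinarith

/-- Adding one arc to an oriented graph costs at most one more inversion. -/
lemma Sol'.add_arc {V : Type} [Fintype V] {R R' : V → V → Prop} {m : ℕ} (h : Sol' R' m)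
    (a b : V) (hR : ∀ u v, R u v → R' u v ∨ (u = a ∧ v = b))
    (hor : ∀ u v, R u v → ¬ R v u) (hab : R a b) : Sol' R (m + 1) := by
  classical
  obtain ⟨x, f, hf, h⟩ := h.inj
  have hne : a ≠ b := by
    rintro rfl
    exact hor a a hab hab
  have hlt : f a < f b ∨ f b < f a := by
    rcases lt_trichotomy (f a) (f b) with h1 | h1 | h1
    · exact Or.inl h1
    · exact absurd (hf h1) hne
    · exact Or.inr h1
  -- is the arc in the wrong position?
  let c : ZMod 2 := if f a < f b then x a ⬝ᵥ x b else x a ⬝ᵥ x b + 1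
  let y : V → ZMod 2 := fun v => if v = a ∨ v = b then c else 0
  refine ⟨fun v => Fin.cons (y v) (x v), f, fun u v => ?_⟩
  have hdot : (Fin.cons (y u) (x u) : Fin (m + 1) → ZMod 2) ⬝ᵥ Fin.cons (y v) (x v) =
      y u * y v + x u ⬝ᵥ x v := by
    simp [dotProduct, Fin.sum_univ_succ]
  rw [hdot]
  have hcc : ∀ d : ZMod 2, d * d = d := by decide
  have h2 : ∀ d : ZMod 2, d = 0 ∨ d = 1 := by decide
  -- the arc from `a` to `b`
  have key : ∀ e : ZMod 2, e = c + x a ⬝ᵥ x b → (e = 0 → f a < f b) ∧ (e = 1 → f b < f a) := by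
    intro e he
    by_cases hc : f a < f b
    · have : c = x a ⬝ᵥ x b := if_pos hc
      rw [this] at he
      have h0 : ∀ d : ZMod 2, d + d = 0 := by decide
      rw [h0] at he
      subst he
      exact ⟨fun _ => hc, fun h => absurd h (by decide)⟩
    · have : c = x a ⬝ᵥ x b + 1 := if_neg hc
      rw [this] at he
      have h0 : ∀ d : ZMod 2, d + 1 + d = 1 := by decide
      rw [h0] at he
      subst he
      exact ⟨fun h => absurd h (by decide), fun _ => hlt.resolve_left hc⟩
  -- for all other arcs the product of the new coordinates vanishes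
  have hya : y a = c := if_pos (Or.inl rfl)
  have hyb : y b = c := if_pos (Or.inr rfl)
  have other : ∀ u v, R' u v → R u v → ¬ (u = a ∧ v = b) → y u * y v = 0 := by
    intro u v _ h1 h3
    by_contra h4
    have hu : u = a ∨ u = b := by
      by_contra h5
      exact h4 (by simp only [y, if_neg h5, zero_mul])
    have hv : v = a ∨ v = b := by
      by_contra h5
      exact h4 (by simp only [y, if_neg h5, mul_zero])
    rcases hu with rfl | rfl <;> rcases hv with rfl | rfl
    · exact hor _ _ h1 h1
    · exact h3 ⟨rfl, rfl⟩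
    · exact hor _ _ h1 hab
    · exact hor _ _ h1 h1
  rintro (⟨h1, h3⟩ | ⟨h1, h3⟩)
  · by_cases hab' : u = a ∧ v = b
    · obtain ⟨rfl, rfl⟩ := hab'
      rw [hya, hyb, hcc] at h3
      exact (key 0 h3.symm).1 rfl
    · rcases hR u v h1 with h4 | h4
      · rw [other u v h4 h1 hab', zero_add] at h3
        exact h u v (Or.inl ⟨h4, h3⟩)
      · exact absurd h4 hab'
  · by_cases hab' : v = a ∧ u = b
    · obtain ⟨rfl, rfl⟩ := hab'
      rw [hya, hyb, hcc, dotProduct_comm] at h3
      exact (key 1 h3.symm).2 rfl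
    · rcases hR v u h1 with h4 | h4
      · rw [mul_comm, other v u h4 h1 hab', zero_add] at h3
        exact h u v (Or.inr ⟨h4, h3⟩)
      · exact absurd h4 hab'

/-- The inversion number as an infimum. -/
noncomputable def inv {V : Type} (R : V → V → Prop) : ℕ := sInf {m | Sol' R m}

lemma inv_le {V : Type} {R : V → V → Prop} {m : ℕ} (h : Sol' R m) : inv R ≤ m := Nat.sInf_le h

lemma inv_spec {V : Type} {R : V → V → Prop} {m : ℕ} (h : Sol' R m) : Sol' R (inv R) :=
  Nat.sInf_mem (s := {m | Sol' R m}) ⟨m, h⟩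

lemma lt_inv {V : Type} {R : V → V → Prop} {m M : ℕ} (hM : Sol' R M) (h : ¬ Sol' R m) :
    m < inv R := by
  by_contra hc
  exact h ((inv_spec hM).mono (not_lt.1 hc))

/-- Any smaller value of the inversion number is attained by a subdigraph. -/
lemma exists_sub {V : Type} [Fintype V] (R : V → V → Prop)
    (hor : ∀ u v, R u v → ¬ R v u) (M : ℕ) (hM : Sol' R M) (t : ℕ) (ht : t ≤ inv R) :
    ∃ R' : V → V → Prop, (∀ u v, R' u v → R u v) ∧ inv R' = t := by
  classical
  -- induct on the number of arcs
  have main : ∀ N : ℕ, ∀ R : V → V → Prop,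
      (Finset.univ.filter (fun p : V × V => R p.1 p.2)).card = N →
      (∀ u v, R u v → ¬ R v u) → Sol' R M → t ≤ inv R →
      ∃ R' : V → V → Prop, (∀ u v, R' u v → R u v) ∧ inv R' = t := by
    intro N
    induction N with
    | zero =>
      intro R hcard hor hM ht
      have hno : ∀ u v, ¬ R u v := by
        intro u v huv
        have : (u, v) ∈ (Finset.univ.filter (fun p : V × V => R p.1 p.2)) := by simp [huv]
        rw [Finset.card_eq_zero] at hcard
        rw [hcard] at this
        simp at this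
      have h0 : Sol' R 0 := by
        refine ⟨fun _ => Fin.elim0, fun _ => 0, fun u v huv => ?_⟩
        rcases huv with h | h
        · exact absurd h.1 (hno _ _)
        · exact absurd h.1 (hno _ _)
      have := inv_le h0
      exact ⟨R, fun _ _ h => h, by omega⟩
    | succ N ih =>
      intro R hcard hor hM ht
      by_cases heq : inv R = t
      · exact ⟨R, fun _ _ h => h, heq⟩
      have hlt : t < inv R := lt_of_le_of_ne ht (Ne.symm heq)
      obtain ⟨⟨a, b⟩, hab⟩ : (Finset.univ.filter (fun p : V × V => R p.1 p.2)).Nonempty := by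
        rw [← Finset.card_pos, hcard]; omega
      have hab' : R a b := by simpa using hab
      let R₁ : V → V → Prop := fun u v => R u v ∧ ¬ (u = a ∧ v = b)
      have hsub : ∀ u v, R₁ u v → R u v := fun _ _ h => h.1
      have hcard₁ : (Finset.univ.filter (fun p : V × V => R₁ p.1 p.2)).card = N := by
        have : (Finset.univ.filter (fun p : V × V => R₁ p.1 p.2)) =
            (Finset.univ.filter (fun p : V × V => R p.1 p.2)).erase (a, b) := by
          ext ⟨u, v⟩
          simp only [R₁, Finset.mem_filter, Finset.mem_univ, true_and, Finset.mem_erase, ne_eq,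
            Prod.mk.injEq]
          tauto
        rw [this, Finset.card_erase_of_mem hab, hcard]
        rfl
      have hM₁ : Sol' R₁ M := hM.mono_rel hsub
      have hstep : inv R ≤ inv R₁ + 1 := by
        refine inv_le ((inv_spec hM₁).add_arc a b ?_ hor hab')
        intro u v huv
        by_cases h : u = a ∧ v = b
        · exact Or.inr h
        · exact Or.inl ⟨huv, h⟩
      obtain ⟨R', h1, h2⟩ := ih R₁ (by convert hcard₁) (fun u v h h' => hor u v h.1 h'.1) hM₁ (by omega)
      exact ⟨R', fun u v h => hsub u v (h1 u v h), h2⟩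
  exact main _ R rfl hor hM ht

end Pool.Agent.H52.Inv
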