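import Mathlib
import Pool.Agent.H52.InvBasic

/-!
Counting: tournaments on `n = 2m` vertices, coded by symmetric matrices over `ZMod 2`, with
inversion number at most `m`.
-/

set_option autoImplicit false

namespace Pool.Agent.H52.Inv

open Finset Matrix

/-- The tournament on `Fin n` coded by `B`: for `i < j` the arc goes from `i` to `j` iff
`B i j = 0`. -/
def Tour {n : ℕ} (B : Fin n → Fin n → ZMod 2) (u v : Fin n) : Prop :=
  u ≠ v ∧ (B u v = 0 ↔ u < v)

lemma zmod2_cases (a : ZMod 2) : a = 0 ∨ a = 1 := by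
  revert a; decide

lemma Tour.asymm {n : ℕ} {B : Fin n → Fin n → ZMod 2} (hB : ∀ u v, B u v = B v u) (u v : Fin n)
    (h : Tour B u v) : ¬ Tour B v u := by
  rintro ⟨h1, h2⟩
  obtain ⟨h3, h4⟩ := h
  rw [hB v u, h4] at h2
  rcases lt_trichotomy u v with h | h | h
  · exact absurd (h2.1 h) (not_lt.2 h.le)
  · exact h3 h
  · exact absurd (h2.2 h) (not_lt.2 h.le)

/-- The matrix entry off the diagonal is determined by the Gram entry and the two orders. -/
lemma entry_eq {n m : ℕ} {B : Fin n → Fin n → ZMod 2} (hB : ∀ u v, B u v = B v u)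
    {x : Fin n → Fin m → ZMod 2} {f : Fin n → ℕ}
    (h : ∀ u v : Fin n, (Tour B u v ∧ x u ⬝ᵥ x v = 0) ∨ (Tour B v u ∧ x u ⬝ᵥ x v = 1) → f u < f v)
    (u v : Fin n) (huv : u ≠ v) :
    B u v = x u ⬝ᵥ x v + (if v < u then 1 else 0) + (if f v < f u then 1 else 0) := by
  have h1 := h u v
  have h2 := h v u
  unfold Tour at h1 h2
  rw [dotProduct_comm (x v) (x u), hB v u] at h2
  rw [hB v u] at h1
  generalize x u ⬝ᵥ x v = g at *
  generalize B u v = b at *
  have h01 : (0 : ZMod 2) ≠ 1 := by decide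
  have h10 : (1 : ZMod 2) ≠ 0 := by decide
  rcases lt_or_gt_of_ne huv with hlt | hlt
  · have hn : ¬ v < u := not_lt.2 hlt.le
    rcases zmod2_cases g with rfl | rfl <;> rcases zmod2_cases b with rfl | rfl
    · have := h1 (Or.inl ⟨⟨huv, by simp [hlt]⟩, rfl⟩)
      rw [if_neg hn, if_neg (not_lt.2 this.le)]; rfl
    · have := h2 (Or.inl ⟨⟨huv.symm, by simp [hn]⟩, rfl⟩)
      rw [if_neg hn, if_pos this]; rfl
    · have := h2 (Or.inr ⟨⟨huv, by simp [hlt]⟩, rfl⟩)
      rw [if_neg hn, if_pos this]; rfl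
    · have := h1 (Or.inr ⟨⟨huv.symm, by simp [hn]⟩, rfl⟩)
      rw [if_neg hn, if_neg (not_lt.2 this.le)]; rfl
  · have hn : ¬ u < v := not_lt.2 (le_of_lt hlt)
    have hlt' : v < u := hlt
    rcases zmod2_cases g with rfl | rfl <;> rcases zmod2_cases b with rfl | rfl
    · have := h2 (Or.inl ⟨⟨huv.symm, by simp [hlt']⟩, rfl⟩)
      rw [if_pos hlt', if_pos this]; rfl
    · have := h1 (Or.inl ⟨⟨huv, by simp [hn]⟩, rfl⟩)
      rw [if_pos hlt', if_neg (not_lt.2 this.le)]; rfl
    · have := h1 (Or.inr ⟨⟨huv.symm, by simp [hlt']⟩, rfl⟩)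
      rw [if_pos hlt', if_neg (not_lt.2 this.le)]; rfl
    · have := h2 (Or.inr ⟨⟨huv, by simp [hn]⟩, rfl⟩)
      rw [if_pos hlt', if_pos this]; rfl

/-- A height function can be replaced by a rank function. -/
lemma exists_rank {n : ℕ} (f : Fin n → ℕ) :
    ∃ ρ : Fin n → Fin n, ∀ u v, f v < f u ↔ ρ v < ρ u := by
  classical
  have hlt : ∀ u, (Finset.univ.filter (fun w => f w < f u)).card < n := by
    intro u
    have h1 : (Finset.univ.filter (fun w => f w < f u)) ⊂ (Finset.univ : Finset (Fin n)) := by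
      rw [Finset.ssubset_univ_iff]
      intro h
      have : u ∈ (Finset.univ.filter (fun w => f w < f u)) := by rw [h]; exact mem_univ _
      simp at this
    simpa using Finset.card_lt_card h1
  refine ⟨fun u => ⟨_, hlt u⟩, fun u v => ?_⟩
  rw [Fin.mk_lt_mk]
  constructor
  · intro h
    apply Finset.card_lt_card
    rw [Finset.ssubset_iff_of_subset]
    · exact ⟨v, by simp [h], by simp⟩
    · intro w hw
      simp only [mem_filter, mem_univ, true_and] at hw ⊢
      exact hw.trans h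
  · intro h
    by_contra hc
    refine absurd h (not_lt.2 (Finset.card_le_card ?_))
    intro w hw
    simp only [mem_filter, mem_univ, true_and] at hw ⊢
    omega

/-- Coefficients of a vector in terms of the chosen generators. -/
def coef {m : ℕ} (C : Fin m → Fin m → ZMod 2) : Fin m ⊕ Fin m → Fin m → ZMod 2
  | Sum.inl a => Pi.single a 1
  | Sum.inr j => C j

/-- The Gram matrix with given data. -/
def gramOf {n m : ℕ} (e : Fin n → Fin m ⊕ Fin m) (H : Sym2 (Fin m) → ZMod 2)
    (C : Fin m → Fin m → ZMod 2) (u v : Fin n) : ZMod 2 :=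
  ∑ a, ∑ b, coef C (e u) a * H s(a, b) * coef C (e v) b

lemma exists_gram {n m : ℕ} (hn : n = 2 * m) (x : Fin n → Fin m → ZMod 2) :
    ∃ (e : Fin n → Fin m ⊕ Fin m) (H : Sym2 (Fin m) → ZMod 2) (C : Fin m → Fin m → ZMod 2),
      ∀ u v, x u ⬝ᵥ x v = gramOf e H C u v := by
  classical
  obtain ⟨s, hs, hspan⟩ := exists_maximal_linearIndepOn (ZMod 2) x
  have hcard : s.toFinset.card ≤ m := by
    have h1 := LinearIndependent.fintype_card_le_finrank hs
    rw [Module.finrank_fin_fun] at h1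
    rwa [Set.toFinset_card]
  obtain ⟨I, hsI, hI⟩ := Finset.exists_superset_card_eq (s := s.toFinset) hcard
    (by rw [Fintype.card_fin]; omega)
  have hIc : (Iᶜ).card = m := by
    rw [Finset.card_compl, Fintype.card_fin, hI]; omega
  let e1 : I ≃ Fin m := Finset.equivFinOfCardEq hI
  let e2 : (Iᶜ : Finset (Fin n)) ≃ Fin m := Finset.equivFinOfCardEq hIc
  let z : Fin m → Fin m → ZMod 2 := fun a => x (e1.symm a)
  have hmem : ∀ u, x u ∈ Submodule.span (ZMod 2) (Set.range z) := by
    intro u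
    by_cases hu : u ∈ s
    · have huI : u ∈ I := hsI (by simpa using hu)
      apply Submodule.subset_span
      exact ⟨e1 ⟨u, huI⟩, by simp [z]⟩
    · obtain ⟨a, ha, hau⟩ := hspan u hu
      have ha1 : a = 1 := (zmod2_cases a).resolve_left ha
      rw [ha1, one_smul] at hau
      refine Submodule.span_mono ?_ hau
      rintro _ ⟨w, hw, rfl⟩
      have hwI : w ∈ I := hsI (by simpa using hw)
      exact ⟨e1 ⟨w, hwI⟩, by simp [z]⟩
  have hc : ∀ u, ∃ c : Fin m → ZMod 2, ∑ a, c a • z a = x u := by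
    intro u
    exact (Submodule.mem_span_range_iff_exists_fun (ZMod 2)).1 (hmem u)
  choose c hc using hc
  let e : Fin n → Fin m ⊕ Fin m := fun u =>
    if h : u ∈ I then Sum.inl (e1 ⟨u, h⟩) else Sum.inr (e2 ⟨u, Finset.mem_compl.2 h⟩)
  let C : Fin m → Fin m → ZMod 2 := fun j => c (e2.symm j)
  let H : Sym2 (Fin m) → ZMod 2 :=
    Sym2.lift ⟨fun a b => z a ⬝ᵥ z b, fun a b => dotProduct_comm _ _⟩
  have hx : ∀ u, x u = ∑ a, coef C (e u) a • z a := by
    intro u
    by_cases h : u ∈ I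
    · have : e u = Sum.inl (e1 ⟨u, h⟩) := dif_pos h
      rw [this]
      simp only [coef]
      rw [Finset.sum_eq_single (e1 ⟨u, h⟩)]
      · simp [z]
      · intro b _ hb
        rw [Pi.single_eq_of_ne hb, zero_smul]
      · intro h'
        exact absurd (mem_univ _) h'
    · have : e u = Sum.inr (e2 ⟨u, Finset.mem_compl.2 h⟩) := dif_neg h
      rw [this]
      simp only [coef, C]
      rw [Equiv.symm_apply_apply]
      exact (hc u).symm
  refine ⟨e, H, C, fun u v => ?_⟩
  conv_lhs => rw [hx u, hx v]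
  unfold gramOf
  rw [sum_dotProduct]
  refine Finset.sum_congr rfl fun a _ => ?_
  rw [dotProduct_sum]
  refine Finset.sum_congr rfl fun b _ => ?_
  rw [smul_dotProduct, dotProduct_smul]
  simp only [smul_eq_mul, H, Sym2.lift_mk]
  ring

/-- The set of data that code the bad matrices. -/
abbrev Data (n m : ℕ) : Type :=
  (Fin n → ZMod 2) × (Fin n → Fin n) × (Fin n → Fin m ⊕ Fin m) × (Sym2 (Fin m) → ZMod 2) ×
    (Fin m → Fin m → ZMod 2)

/-- Decoding. -/
def decode {n m : ℕ} (p : Data n m) (u v : Fin n) : ZMod 2 :=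
  if u = v then p.1 u else
    gramOf p.2.2.1 p.2.2.2.1 p.2.2.2.2 u v + (if v < u then 1 else 0) +
      (if p.2.1 v < p.2.1 u then 1 else 0)

lemma exists_decode {n m : ℕ} (hn : n = 2 * m) {B : Fin n → Fin n → ZMod 2}
    (hB : ∀ u v, B u v = B v u) (h : Sol' (Tour B) m) : ∃ p : Data n m, decode p = B := by
  obtain ⟨x, f, h⟩ := h
  obtain ⟨ρ, hρ⟩ := exists_rank f
  obtain ⟨e, H, C, hg⟩ := exists_gram hn x
  refine ⟨(fun u => B u u, ρ, e, H, C), ?_⟩
  funext u v
  unfold decode
  by_cases huv : u = v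
  · subst huv
    simp
  · rw [if_neg huv, entry_eq hB h u v huv, hg]
    simp only [hρ]

lemma card_data (n m : ℕ) : Fintype.card (Data n m) =
    2 ^ n * (n ^ n * ((2 * m) ^ n * (2 ^ ((m + 1).choose 2) * (2 ^ m) ^ m))) := by
  simp only [Data, Fintype.card_prod, Fintype.card_fun, Fintype.card_sum, Fintype.card_fin,
    ZMod.card, Sym2.card]
  ring

end Pool.Agent.H52.Inv
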