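import Mathlib
import Pool.Agent.H52.InvBasic
import Pool.Agent.H52.InvCount

/-!
Two tournaments on `n` vertices, both with large inversion number, whose dijoin has inversion
number at most `n`.
-/

set_option autoImplicit false

namespace Pool.Agent.H52.Inv

open Finset Matrix

/-- Free entries of a unit lower triangular matrix. -/
abbrev Q (n : ℕ) : Type := (i : Fin n) → (Fin i.val → ZMod 2)

/-- The unit lower triangular matrix with the given entries. -/
def low {n : ℕ} (q : Q n) : Matrix (Fin n) (Fin n) (ZMod 2) := fun i j =>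
  if h : (j : ℕ) < i then q i ⟨j, h⟩ else if i = j then 1 else 0

lemma low_of_lt {n : ℕ} (q : Q n) {i j : Fin n} (h : i < j) : low q i j = 0 := by
  unfold low
  rw [dif_neg (by have : (i : ℕ) < j := h; omega), if_neg (ne_of_lt h)]

lemma low_self {n : ℕ} (q : Q n) (i : Fin n) : low q i i = 1 := by
  unfold low
  rw [dif_neg (lt_irrefl _), if_pos rfl]

lemma low_injective (n : ℕ) : Function.Injective (low (n := n)) := by
  intro q q' h
  funext i j
  have h1 := congrFun (congrFun h i) ⟨j, j.2.trans i.2⟩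
  unfold low at h1
  rw [dif_pos j.2, dif_pos j.2] at h1
  exact h1

lemma low_det {n : ℕ} (q : Q n) : (low q).det = 1 := by
  rw [Matrix.det_of_isLowerTriangular _ (fun i j h => low_of_lt q h)]
  exact Finset.prod_eq_one fun i _ => low_self q i

lemma gram_injective {n : ℕ} {q q' : Q n}
    (h : low q * (low q)ᵀ = low q' * (low q')ᵀ) : q = q' := by
  have key : ∀ j : ℕ, ∀ (hj : j < n) (i : Fin n), low q i ⟨j, hj⟩ = low q' i ⟨j, hj⟩ := by
    intro j
    induction j using Nat.strong_induction_on with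
    | _ j ih =>
      intro hj i
      have hformula : ∀ p : Q n, low p i ⟨j, hj⟩ = (low p * (low p)ᵀ) i ⟨j, hj⟩ -
          ∑ k ∈ Finset.univ.filter (fun k : Fin n => k < ⟨j, hj⟩), low p i k * low p ⟨j, hj⟩ k := by
        intro p
        rw [Matrix.mul_apply]
        simp only [Matrix.transpose_apply]
        rw [← Finset.sum_filter_add_sum_filter_not Finset.univ
          (fun k : Fin n => k < ⟨j, hj⟩), add_sub_cancel_left]
        rw [Finset.sum_eq_single (⟨j, hj⟩ : Fin n)]
        · rw [low_self, mul_one]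
        · intro b hb hne
          have : (⟨j, hj⟩ : Fin n) < b := by
            simp only [mem_filter, mem_univ, true_and, not_lt] at hb
            exact lt_of_le_of_ne hb (Ne.symm hne)
          rw [low_of_lt p this, mul_zero]
        · intro h'
          simp at h'
      rw [hformula q, hformula q', h]
      congr 1
      refine Finset.sum_congr rfl fun k hk => ?_
      have hk' : (k : ℕ) < j := by
        simp only [mem_filter, mem_univ, true_and] at hk
        exact hk
      rw [ih k hk' k.2 i, ih k hk' k.2 ⟨j, hj⟩]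
  apply low_injective n
  funext i j
  exact key j j.2 i

/-- The lower triangular matrix of ones. -/
def Lo (n : ℕ) : Matrix (Fin n) (Fin n) (ZMod 2) := fun i j => if j ≤ i then 1 else 0

lemma Lo_det (n : ℕ) : (Lo n).det = 1 := by
  rw [Matrix.det_of_isLowerTriangular (Lo n) (fun i j h => if_neg (not_le.2 h))]
  exact Finset.prod_eq_one fun i _ => if_pos le_rfl

/-- The vectors of the second tournament are the columns of this matrix. -/
noncomputable def Y {n : ℕ} (q : Q n) : Matrix (Fin n) (Fin n) (ZMod 2) := (low q)⁻¹ * Lo n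

lemma low_mul_Y {n : ℕ} (q : Q n) : low q * Y q = Lo n := by
  unfold Y
  rw [Matrix.mul_nonsing_inv_cancel_left]
  rw [low_det]; exact isUnit_one

lemma Y_gram_injective {n : ℕ} {q q' : Q n} (h : (Y q)ᵀ * Y q = (Y q')ᵀ * Y q') : q = q' := by
  have hLo : IsUnit (Lo n).det := by rw [Lo_det]; exact isUnit_one
  have hLoT : IsUnit (Lo n)ᵀ.det := by rw [Matrix.det_transpose]; exact hLo
  have e : ∀ p : Q n, (Y p)ᵀ * Y p = (Lo n)ᵀ * ((low p * (low p)ᵀ)⁻¹ * Lo n) := by
    intro p
    unfold Y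
    rw [Matrix.transpose_mul, Matrix.mul_inv_rev, Matrix.transpose_nonsing_inv]
    simp only [Matrix.mul_assoc]
  rw [e q, e q'] at h
  have h1 : (low q * (low q)ᵀ)⁻¹ = (low q' * (low q')ᵀ)⁻¹ := by
    have h2 := congrArg (fun M => ((Lo n)ᵀ)⁻¹ * M * (Lo n)⁻¹) h
    simp only [Matrix.nonsing_inv_mul_cancel_left _ _ hLoT,
      Matrix.mul_nonsing_inv_cancel_right _ _ hLo] at h2
    exact h2
  have hu : ∀ p : Q n, IsUnit (low p * (low p)ᵀ).det := by
    intro p
    rw [Matrix.det_mul, Matrix.det_transpose, low_det, mul_one]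
    exact isUnit_one
  have h3 := congrArg (fun M => M⁻¹) h1
  simp only [Matrix.nonsing_inv_nonsing_inv _ (hu _)] at h3
  exact gram_injective h3

/-- Code of the first tournament. -/
def B1 {n : ℕ} (q : Q n) (u v : Fin n) : ZMod 2 := low q u ⬝ᵥ low q v

/-- Code of the second tournament. -/
noncomputable def B2 {n : ℕ} (q : Q n) (u v : Fin n) : ZMod 2 := (Y q)ᵀ u ⬝ᵥ (Y q)ᵀ v

lemma B1_symm {n : ℕ} (q : Q n) (u v : Fin n) : B1 q u v = B1 q v u := dotProduct_comm _ _

lemma B2_symm {n : ℕ} (q : Q n) (u v : Fin n) : B2 q u v = B2 q v u := dotProduct_comm _ _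

lemma B1_injective (n : ℕ) : Function.Injective (B1 (n := n)) := by
  intro q q' h
  apply gram_injective
  ext u v
  exact congrFun (congrFun h u) v

lemma B2_injective (n : ℕ) : Function.Injective (B2 (n := n)) := by
  intro q q' h
  apply Y_gram_injective
  ext u v
  exact congrFun (congrFun h u) v

lemma card_Q (n : ℕ) : Fintype.card (Q n) = 2 ^ (n * (n - 1) / 2) := by
  rw [Fintype.card_pi]
  simp only [Fintype.card_fun, ZMod.card, Fintype.card_fin]
  rw [Fin.prod_univ_eq_prod_range (fun i => 2 ^ i) n, Finset.prod_pow_eq_pow_sum,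
    Finset.sum_range_id]

lemma exists_good {n m : ℕ} (hn : n = 2 * m)
    (hcard : 2 * Fintype.card (Data n m) < Fintype.card (Q n)) :
    ∃ q : Q n, ¬ Sol' (Tour (B1 q)) m ∧ ¬ Sol' (Tour (B2 q)) m := by
  classical
  by_contra hc
  push Not at hc
  have hex : ∀ q : Q n, ∃ p : Data n m ⊕ Data n m,
      (∀ p', p = Sum.inl p' → decode p' = B1 q) ∧ (∀ p', p = Sum.inr p' → decode p' = B2 q) := by
    intro q
    by_cases h : Sol' (Tour (B1 q)) m
    · obtain ⟨p, hp⟩ := exists_decode hn (B1_symm q) h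
      exact ⟨Sum.inl p, fun p' hp' => by rw [← Sum.inl_injective hp', hp],
        fun p' hp' => absurd hp' (by simp)⟩
    · obtain ⟨p, hp⟩ := exists_decode hn (B2_symm q) (hc q h)
      exact ⟨Sum.inr p, fun p' hp' => absurd hp' (by simp),
        fun p' hp' => by rw [← Sum.inr_injective hp', hp]⟩
  choose g hg1 hg2 using hex
  have hinj : Function.Injective g := by
    intro q q' h
    rcases hgq : g q with p | p
    · have h1 := hg1 q p hgq
      have h2 := hg1 q' p (by rw [← h, hgq])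
      exact B1_injective n (h1.symm.trans h2)
    · have h1 := hg2 q p hgq
      have h2 := hg2 q' p (by rw [← h, hgq])
      exact B2_injective n (h1.symm.trans h2)
  have := Fintype.card_le_of_injective g hinj
  rw [Fintype.card_sum] at this
  omega

/-- The relation of a `k`-join. -/
def joinRel {k : ℕ} {n : Fin k → ℕ} (R : (i : Fin k) → Fin (n i) → Fin (n i) → Prop)
    (u v : Σ i : Fin k, Fin (n i)) : Prop :=
  u.1 < v.1 ∨ ∃ (i : Fin k) (a b : Fin (n i)), u = ⟨i, a⟩ ∧ v = ⟨i, b⟩ ∧ R i a b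

lemma sol_B1 {n : ℕ} (q : Q n) : Sol' (Tour (B1 q)) n := by
  refine ⟨low q, fun u => u, fun u v => ?_⟩
  rintro (⟨⟨_, h1⟩, h2⟩ | ⟨⟨h0, h1⟩, h2⟩)
  · exact h1.1 h2
  · have : B1 q v u = 1 := by rw [B1_symm]; exact h2
    rw [this] at h1
    have h3 : ¬ v < u := fun h => absurd (h1.2 h) (by decide)
    exact lt_of_le_of_ne (not_lt.1 h3) (Fin.val_ne_of_ne h0.symm)

lemma sol_B2 {n : ℕ} (q : Q n) : Sol' (Tour (B2 q)) n := by
  refine ⟨(Y q)ᵀ, fun u => u, fun u v => ?_⟩
  rintro (⟨⟨_, h1⟩, h2⟩ | ⟨⟨h0, h1⟩, h2⟩)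
  · exact h1.1 h2
  · have : B2 q v u = 1 := by rw [B2_symm]; exact h2
    rw [this] at h1
    have h3 : ¬ v < u := fun h => absurd (h1.2 h) (by decide)
    exact lt_of_le_of_ne (not_lt.1 h3) (Fin.val_ne_of_ne h0.symm)

lemma cross {n : ℕ} (q : Q n) (u v : Fin n) :
    low q u ⬝ᵥ (Y q)ᵀ v = if v ≤ u then 1 else 0 := by
  have := congrFun (congrFun (low_mul_Y q) u) v
  rw [Matrix.mul_apply] at this
  unfold Lo at this
  exact this

/-- The join of the two tournaments becomes acyclic after `n` inversions. -/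
lemma sol_join {N : ℕ} (q : Q N) (R : Fin 2 → Fin N → Fin N → Prop)
    (h0 : ∀ u v, R 0 u v → Tour (B1 q) u v) (h1 : ∀ u v, R 1 u v → Tour (B2 q) u v) :
    Sol' (joinRel (n := fun _ : Fin 2 => N) R) N := by
  refine ⟨fun u => if u.1 = 0 then low q u.2 else (Y q)ᵀ u.2,
    fun u => if u.1 = 0 then 2 * (u.2 : ℕ) + 1 else 2 * (u.2 : ℕ), ?_⟩
  have aux : ∀ (B : Fin N → Fin N → ZMod 2), (∀ a b, B a b = B b a) → ∀ a b,
      (Tour B a b ∧ B a b = 0) ∨ (Tour B b a ∧ B a b = 1) → a < b := by
    intro B hB a b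
    rintro (⟨⟨_, h1⟩, h2⟩ | ⟨⟨h0, h1⟩, h2⟩)
    · exact h1.1 h2
    · rw [hB] at h2
      rw [h2] at h1
      have h3 : ¬ b < a := fun h => absurd (h1.2 h) (by decide)
      exact lt_of_le_of_ne (not_lt.1 h3) h0.symm
  have e0 : (0 : Fin 2) ≠ 1 := by decide
  have e1 : (1 : Fin 2) ≠ 0 := by decide
  have f2 : ∀ i : Fin 2, i = 0 ∨ i = 1 := by decide
  -- arcs inside a part
  have hj : ∀ (i j : Fin 2) (a b : Fin N), joinRel (n := fun _ : Fin 2 => N) R ⟨i, a⟩ ⟨j, b⟩ →
      (i = 0 ∧ j = 1) ∨ (i = 0 ∧ j = 0 ∧ Tour (B1 q) a b) ∨ (i = 1 ∧ j = 1 ∧ Tour (B2 q) a b) := by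
    intro i j a b h
    rcases h with h | ⟨i', a', b', hu, hv, hR⟩
    · left
      have h' : i < j := h
      rcases f2 i with rfl | rfl <;> rcases f2 j with rfl | rfl
      · exact absurd h' (by decide)
      · exact ⟨rfl, rfl⟩
      · exact absurd h' (by decide)
      · exact absurd h' (by decide)
    · right
      simp only [Sigma.mk.injEq] at hu hv
      obtain ⟨rfl, hu⟩ := hu
      obtain ⟨rfl, hv⟩ := hv
      have hu := eq_of_heq hu
      have hv := eq_of_heq hv
      subst hu hv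
      rcases f2 j with rfl | rfl
      · exact Or.inl ⟨rfl, rfl, h0 _ _ hR⟩
      · exact Or.inr ⟨rfl, rfl, h1 _ _ hR⟩
  rintro ⟨i, a⟩ ⟨j, b⟩ h
  have hcr := cross q
  rcases h with ⟨h, hd⟩ | ⟨h, hd⟩
  · rcases hj i j a b h with ⟨rfl, rfl⟩ | ⟨rfl, rfl, hT⟩ | ⟨rfl, rfl, hT⟩
    · simp only [if_true, if_neg e1] at hd ⊢
      rw [hcr] at hd
      have : ¬ b ≤ a := by
        intro hba
        rw [if_pos hba] at hd
        exact absurd hd (by decide)
      have : (a : ℕ) < b := not_le.1 this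
      omega
    · simp only [if_true] at hd ⊢
      have := aux _ (B1_symm q) a b (Or.inl ⟨hT, hd⟩)
      have : (a : ℕ) < b := this
      omega
    · simp only [if_neg e1] at hd ⊢
      have := aux _ (B2_symm q) a b (Or.inl ⟨hT, hd⟩)
      have : (a : ℕ) < b := this
      omega
  · rcases hj j i b a h with ⟨rfl, rfl⟩ | ⟨rfl, rfl, hT⟩ | ⟨rfl, rfl, hT⟩
    · simp only [if_true, if_neg e1] at hd ⊢
      rw [dotProduct_comm, hcr] at hd
      have : a ≤ b := by
        by_contra hba
        rw [if_neg hba] at hd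
        exact absurd hd (by decide)
      have : (a : ℕ) ≤ b := this
      omega
    · simp only [if_true] at hd ⊢
      have := aux _ (B1_symm q) a b (Or.inr ⟨hT, hd⟩)
      have : (a : ℕ) < b := this
      omega
    · simp only [if_neg e1] at hd ⊢
      have := aux _ (B2_symm q) a b (Or.inr ⟨hT, hd⟩)
      have : (a : ℕ) < b := this
      omega

/-- The numerical inequality behind the counting argument. -/
lemma numeric : 2 * Fintype.card (Data 254 127) < Fintype.card (Q 254) := by
  rw [card_data, card_Q]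
  have h1 : (254 : ℕ) ^ 254 ≤ 2 ^ 2032 := by
    calc (254 : ℕ) ^ 254 ≤ (2 ^ 8) ^ 254 := Nat.pow_le_pow_left (by norm_num) _
      _ = 2 ^ 2032 := by rw [← pow_mul]
  have h2 : Nat.choose (127 + 1) 2 = 8128 := by rw [Nat.choose_two_right]
  have h3 : 2 * 127 = 254 := by norm_num
  have h4 : 254 * (254 - 1) / 2 = 32131 := by norm_num
  rw [h2, h3, h4]
  calc 2 * (2 ^ 254 * (254 ^ 254 * (254 ^ 254 * (2 ^ 8128 * (2 ^ 127) ^ 127))))
      ≤ 2 * (2 ^ 254 * (2 ^ 2032 * (2 ^ 2032 * (2 ^ 8128 * (2 ^ 127) ^ 127)))) := by gcongr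
    _ = 2 ^ 28576 := by
        rw [← pow_mul, ← pow_add, ← pow_add, ← pow_add, ← pow_add, ← pow_succ']
    _ < 2 ^ 32131 := Nat.pow_lt_pow_right (by norm_num) (by norm_num)

lemma sInf_sol {V : Type} (R : V → V → Prop) : sInf {m | Sol R m} = inv R := by
  unfold inv
  congr 1
  ext m
  exact sol_iff R m

/-- Two oriented graphs on 254 vertices, both with inversion number exactly 128, whose dijoin has
inversion number at most 254. -/
theorem exists_pair : ∃ R : Fin 2 → Fin 254 → Fin 254 → Prop,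
    (∀ i a b, R i a b → ¬ R i b a) ∧ (∀ i, sInf {m | Sol (R i) m} = 128) ∧
    sInf {m | Sol (joinRel (n := fun _ : Fin 2 => 254) R) m} ≤ 254 := by
  obtain ⟨q, hq1, hq2⟩ := exists_good (n := 254) (m := 127) (by norm_num) numeric
  have l1 := lt_inv (sol_B1 q) hq1
  have l2 := lt_inv (sol_B2 q) hq2
  obtain ⟨R1, hR1, hi1⟩ := exists_sub (Tour (B1 q)) (Tour.asymm (B1_symm q)) 254 (sol_B1 q) 128 l1
  obtain ⟨R2, hR2, hi2⟩ := exists_sub (Tour (B2 q)) (Tour.asymm (B2_symm q)) 254 (sol_B2 q) 128 l2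
  refine ⟨fun i => if i = 0 then R1 else R2, ?_, ?_, ?_⟩
  · intro i a b h
    by_cases hi : i = 0
    · simp only [if_pos hi] at h ⊢
      intro h'
      exact Tour.asymm (B1_symm q) _ _ (hR1 _ _ h) (hR1 _ _ h')
    · simp only [if_neg hi] at h ⊢
      intro h'
      exact Tour.asymm (B2_symm q) _ _ (hR2 _ _ h) (hR2 _ _ h')
  · intro i
    by_cases hi : i = 0
    · simp only [if_pos hi]
      rw [sInf_sol, hi1]
    · simp only [if_neg hi]
      rw [sInf_sol, hi2]
  · rw [sInf_sol]
    apply inv_le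
    apply sol_join q
    · intro u v h
      simp only [if_true] at h
      exact hR1 _ _ h
    · intro u v h
      simp only [if_neg (show ¬ ((1 : Fin 2) = 0) by decide)] at h
      exact hR2 _ _ h

end Pool.Agent.H52.Inv
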